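import Pool.Agent.helper76.UF.SpecB

/-! # Project UF (MP_37e5fa_nt), row CLS -/

set_option autoImplicit false

namespace Pool.Agent.UF

open Finset Polynomial NumberField nonZeroDivisors

theorem CLS : CLS_stmt := by
  intro R _ _ b hb f hf0 r hyp s
  induction s using Multiset.induction_on with
  | empty =>
    intro _ _ ρ hρ
    refine ⟨0, 0, rfl, ?_⟩
    rw [Multiset.map_zero, Multiset.prod_zero, map_one, mul_one] at hρ
    rw [Multiset.map_zero, Multiset.prod_zero, Multiset.map_zero, Multiset.prod_zero, mul_one]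
    exact associated_one_iff_isUnit.mpr (IsUnit.of_mul_eq_one _ hρ)
  | cons t s1 ih =>
    intro hcard hodd ρ hρ
    have hcard1 : Multiset.card s1 ≤ r := by
      rw [Multiset.card_cons] at hcard
      omega
    have hodd1 : ∀ u ∈ s1, Odd u := fun u hu => hodd u (Multiset.mem_cons_of_mem hu)
    have ht : t ∈ t ::ₘ s1 := Multiset.mem_cons_self t s1
    have hft : f t ≠ 0 := hf0 t (hodd t ht)
    have hbft : b (f t) ≠ 0 := by
      intro h
      apply hft
      rw [← hb (f t), h, map_zero]
    have hα : ((t ::ₘ s1).map f).prod = f t * (s1.map f).prod := by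
      rw [Multiset.map_cons, Multiset.prod_cons]
    have hor := hyp (t ::ₘ s1) hcard hodd ρ hρ t ht
    rw [hα, map_mul] at hρ
    rcases hor with h | h
    · obtain ⟨ρ1, rfl⟩ := h
      have h2 : ρ1 * b ρ1 = (s1.map f).prod * b (s1.map f).prod := by
        apply mul_left_cancel₀ (mul_ne_zero hft hbft)
        rw [map_mul] at hρ
        linear_combination hρ
      obtain ⟨s₁, s₂, hs, hass⟩ := ih hcard1 hodd1 ρ1 h2
      refine ⟨t ::ₘ s₁, s₂, ?_, ?_⟩
      · rw [Multiset.cons_add, hs]
      · rw [Multiset.map_cons, Multiset.prod_cons, mul_assoc]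
        exact hass.mul_left (f t)
    · obtain ⟨ρ2, hρ2⟩ := h
      have h3 : ρ = b (f t) * b ρ2 := by
        rw [← map_mul, ← hρ2, hb]
      have h2 : b ρ2 * b (b ρ2) = (s1.map f).prod * b (s1.map f).prod := by
        apply mul_left_cancel₀ (mul_ne_zero hft hbft)
        rw [hρ2, h3] at hρ
        rw [hb]
        linear_combination hρ
      obtain ⟨s₁, s₂, hs, hass⟩ := ih hcard1 hodd1 (b ρ2) h2
      refine ⟨s₁, t ::ₘ s₂, ?_, ?_⟩
      · rw [Multiset.add_cons, hs]
      · rw [Multiset.map_cons, Multiset.prod_cons, h3, mul_left_comm]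
        exact hass.mul_left (b (f t))

end Pool.Agent.UF
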