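import Pool.Agent.helper76.UF.Spec

/-! # Project UF (MP_37e5fa_nt), row IND -/

set_option autoImplicit false

namespace Pool.Agent.UF

open Finset Polynomial NumberField

theorem IND_cop {R : Type} [CommRing R] (y : R) (g : ℕ → R) (s : Multiset ℕ)
    (h : ∀ u ∈ s, IsCoprime y (g u)) : IsCoprime y (s.map g).prod := by
  induction s using Multiset.induction_on with
  | empty =>
    rw [Multiset.map_zero, Multiset.prod_zero]
    exact isCoprime_one_right
  | cons a s ih =>
    rw [Multiset.map_cons, Multiset.prod_cons]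
    exact (h a (Multiset.mem_cons_self a s)).mul_right (ih fun u hu => h u (Multiset.mem_cons_of_mem hu))

theorem IND : IND_stmt := by
  intro R _ _ b hb f hf0 r hyp s
  induction s using Multiset.induction_on with
  | empty =>
    intro _ _ _ δ hδ
    refine ⟨0, le_rfl, ?_⟩
    rw [Multiset.map_zero, Multiset.prod_zero] at hδ ⊢
    exact associated_one_iff_isUnit.mpr (isUnit_of_dvd_one hδ)
  | cons t s1 ih =>
    intro hcard hodd hcop δ hδ
    have hcard1 : Multiset.card s1 ≤ r := by
      rw [Multiset.card_cons] at hcard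
      omega
    have hodd1 : ∀ u ∈ s1, Odd u := fun u hu => hodd u (Multiset.mem_cons_of_mem hu)
    have hcop1 : ∀ u ∈ s1, ∀ v ∈ s1, IsCoprime (f u) (b (f v)) := fun u hu v hv =>
      hcop u (Multiset.mem_cons_of_mem hu) v (Multiset.mem_cons_of_mem hv)
    have ht : t ∈ t ::ₘ s1 := Multiset.mem_cons_self t s1
    have hft : f t ≠ 0 := hf0 t (hodd t ht)
    obtain ⟨ε, hε⟩ := hδ
    have hρ : (b δ * ε) * b (b δ * ε) = ((t ::ₘ s1).map f).prod * b ((t ::ₘ s1).map f).prod := by
      rw [map_mul, hb, hε, map_mul]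
      ring
    have hcopα : IsCoprime (f t) (b ((t ::ₘ s1).map f).prod) := by
      have h1 : b ((t ::ₘ s1).map f).prod = ((t ::ₘ s1).map (fun u => b (f u))).prod := by
        rw [map_multiset_prod, Multiset.map_map]
        rfl
      rw [h1]
      exact IND_cop _ _ _ fun u hu => hcop t ht u hu
    have hα : ((t ::ₘ s1).map f).prod = f t * (s1.map f).prod := by
      rw [Multiset.map_cons, Multiset.prod_cons]
    have hc1 : IsCoprime (f t) (b δ) := by
      refine hcopα.of_isCoprime_of_dvd_right ?_
      rw [hε, map_mul]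
      exact dvd_mul_right _ _
    have hc2 : IsCoprime (f t) (b ε) := by
      refine hcopα.of_isCoprime_of_dvd_right ?_
      rw [hε, map_mul]
      exact dvd_mul_left _ _
    rcases hyp (t ::ₘ s1) hcard hodd (b δ * ε) hρ t ht with h | h
    · obtain ⟨ε1, rfl⟩ := hc1.dvd_of_dvd_mul_left h
      have h2 : (s1.map f).prod = δ * ε1 := by
        apply mul_left_cancel₀ hft
        rw [← hα, hε]
        ring
      obtain ⟨s', hs', hass⟩ := ih hcard1 hodd1 hcop1 δ ⟨ε1, h2⟩
      exact ⟨s', hs'.trans (Multiset.le_cons_self s1 t), hass⟩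
    · rw [map_mul, hb] at h
      obtain ⟨δ1, rfl⟩ := hc2.dvd_of_dvd_mul_right h
      have h2 : (s1.map f).prod = δ1 * ε := by
        apply mul_left_cancel₀ hft
        rw [← hα, hε]
        ring
      obtain ⟨s', hs', hass⟩ := ih hcard1 hodd1 hcop1 δ1 ⟨ε, h2⟩
      refine ⟨t ::ₘ s', Multiset.cons_le_cons t hs', ?_⟩
      rw [Multiset.map_cons, Multiset.prod_cons]
      exact hass.mul_left (f t)

end Pool.Agent.UF
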