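import Pool.Agent.helper76.UF.Spec

/-! # Project UF (MP_37e5fa_nt), row PIG -/

set_option autoImplicit false

namespace Pool.Agent.UF

open Finset Polynomial NumberField

theorem PIG : PIG_stmt := by
  intro M Q n v hQ hn
  have hn0 : (0 : ℤ) < n := by exact_mod_cast hn
  have hQ0 : (0 : ℤ) < Q := by exact_mod_cast hQ
  let f : ℕ → (Fin M → ℤ) := fun t i => ((Q : ℤ) * (((t : ℤ) * v i) % n)) / n
  have hmap : Set.MapsTo f (range (Q ^ M + 1) : Finset ℕ) (Fintype.piFinset (fun _ : Fin M => Finset.Ico (0 : ℤ) Q) : Finset (Fin M → ℤ)) := by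
    intro t _
    rw [mem_coe, Fintype.mem_piFinset]
    intro i
    rw [mem_Ico]
    have h1 := Int.emod_nonneg ((t : ℤ) * v i) hn0.ne'
    have h2 := Int.emod_lt_of_pos ((t : ℤ) * v i) hn0
    constructor
    · exact Int.ediv_nonneg (mul_nonneg hQ0.le h1) hn0.le
    · apply Int.ediv_lt_of_lt_mul hn0
      exact mul_lt_mul_of_pos_left h2 hQ0
  have hcard : #(Fintype.piFinset (fun _ : Fin M => Finset.Ico (0 : ℤ) Q)) < #(range (Q ^ M + 1)) := by
    rw [Fintype.card_piFinset_const, Int.card_Ico, card_range]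
    simp
  obtain ⟨a, ha, b, hb, hab, hf⟩ := exists_ne_map_eq_of_card_lt_of_maps_to hcard hmap
  have main : ∀ t1 t2 : ℕ, t1 < t2 → t2 ≤ Q ^ M → f t1 = f t2 →
      ∃ t : ℕ, 1 ≤ t ∧ t ≤ Q ^ M ∧ ∀ i, ∃ b : ℤ, (n : ℤ) ∣ (t : ℤ) * v i - b ∧ |b| * Q ≤ n := by
    intro t1 t2 h12 h2 hft
    refine ⟨t2 - t1, by omega, by omega, ?_⟩
    intro i
    refine ⟨((t2 : ℤ) * v i) % n - ((t1 : ℤ) * v i) % n, ?_, ?_⟩
    · have e1 : (n : ℤ) ∣ (t2 : ℤ) * v i - ((t2 : ℤ) * v i) % n := Int.dvd_self_sub_emod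
      have e2 : (n : ℤ) ∣ (t1 : ℤ) * v i - ((t1 : ℤ) * v i) % n := Int.dvd_self_sub_emod
      have e3 := dvd_sub e1 e2
      rw [Nat.cast_sub h12.le]
      have e4 : ((t2 : ℤ) - (t1 : ℤ)) * v i - (((t2 : ℤ) * v i) % n - ((t1 : ℤ) * v i) % n) =
          (t2 : ℤ) * v i - ((t2 : ℤ) * v i) % n - ((t1 : ℤ) * v i - ((t1 : ℤ) * v i) % n) := by ring
      rw [e4]
      exact e3
    · have hfi : ((Q : ℤ) * (((t1 : ℤ) * v i) % n)) / n = ((Q : ℤ) * (((t2 : ℤ) * v i) % n)) / n := congrFun hft i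
      set A := (Q : ℤ) * (((t1 : ℤ) * v i) % n) with hA
      set B := (Q : ℤ) * (((t2 : ℤ) * v i) % n) with hB
      have a1 := Int.mul_ediv_add_emod A n
      have a2 := Int.mul_ediv_add_emod B n
      have b1 := Int.emod_nonneg A hn0.ne'
      have b2 := Int.emod_lt_of_pos A hn0
      have b3 := Int.emod_nonneg B hn0.ne'
      have b4 := Int.emod_lt_of_pos B hn0
      have h5 : |((t2 : ℤ) * v i) % n - ((t1 : ℤ) * v i) % n| * Q = |B - A| := by
        rw [hA, hB, ← mul_sub, abs_mul, abs_of_pos hQ0, mul_comm]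
      rw [h5, abs_le]
      rw [hfi] at a1
      constructor
      · linarith
      · linarith
  have ha' : a ≤ Q ^ M := Nat.lt_succ_iff.mp (mem_range.mp ha)
  have hb' : b ≤ Q ^ M := Nat.lt_succ_iff.mp (mem_range.mp hb)
  rcases lt_or_gt_of_ne hab with h | h
  · exact main a b h hb' hf
  · exact main b a h ha' hf.symm

end Pool.Agent.UF
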