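import Pool.Agent.helper76.UF.Spec

/-! # Project UF (MP_37e5fa_nt), row TW0 -/

set_option autoImplicit false

namespace Pool.Agent.UF

open Finset Polynomial NumberField

theorem TW0 : TW0_stmt := by
  intro N l R _ y hl hB
  refine ⟨by rw [← pow_mul]; exact hB.1, ?_⟩
  intro c hc i hi
  have h1 : ∑ k ∈ range (l * N), ((if l ∣ k then c (k / l) else 0 : ℤ) : R) * y ^ k = 0 := by
    rw [← hc]
    have h2 : ∑ k ∈ (range N).image (fun i => l * i), ((if l ∣ k then c (k / l) else 0 : ℤ) : R) * y ^ k =
        ∑ k ∈ range (l * N), ((if l ∣ k then c (k / l) else 0 : ℤ) : R) * y ^ k := by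
      apply sum_subset
      · intro k hk
        obtain ⟨j, hj, rfl⟩ := mem_image.mp hk
        rw [mem_range] at hj ⊢
        exact Nat.mul_lt_mul_of_pos_left hj (by omega)
      · intro k hk hk2
        rw [if_neg, Int.cast_zero, zero_mul]
        rintro ⟨j, rfl⟩
        apply hk2
        rw [mem_image]
        refine ⟨j, ?_, rfl⟩
        rw [mem_range] at hk ⊢
        exact lt_of_mul_lt_mul_left hk (Nat.zero_le l)
    rw [← h2, sum_image (fun a _ b _ hab => Nat.eq_of_mul_eq_mul_left (by omega) hab)]
    apply sum_congr rfl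
    intro j _
    rw [if_pos (dvd_mul_right l j), Nat.mul_div_cancel_left j (by omega), pow_mul]
  have h3 := hB.2 _ h1 (l * i) (Nat.mul_lt_mul_of_pos_left hi (by omega))
  rw [if_pos (dvd_mul_right l i), Nat.mul_div_cancel_left i (by omega)] at h3
  exact h3

end Pool.Agent.UF
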