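import Pool.Agent.helper76.UF.Spec

/-! # Project UF (MP_37e5fa_nt), row UC2 -/

set_option autoImplicit false

namespace Pool.Agent.UF

open Finset Polynomial NumberField

theorem UC2_bar {R : Type} [CommRing R] (N : ℕ) (x y : R) (hx : x ^ N = -1) (hy : y * x = 1) (k : ℕ) (hk : k ≤ N) :
    y ^ k = - x ^ (N - k) := by
  have h1 : y ^ k * x ^ k = 1 := by rw [← mul_pow, hy, one_pow]
  have h2 : x ^ (N - k) * x ^ k = -1 := by
    rw [← pow_add, Nat.sub_add_cancel hk, hx]
  calc y ^ k = y ^ k * (-(x ^ (N - k) * x ^ k)) := by rw [h2]; ring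
    _ = (y ^ k * x ^ k) * (- x ^ (N - k)) := by ring
    _ = - x ^ (N - k) := by rw [h1, one_mul]

theorem UC2_mon {R : Type} [CommRing R] (N : ℕ) (x : R) (k : ℕ) (hk : k < N) :
    x ^ k = ∑ l ∈ range N, ((if l = k then 1 else 0 : ℤ) : R) * x ^ l := by
  rw [sum_eq_single k]
  · simp
  · intro l _ hl
    rw [if_neg hl, Int.cast_zero, zero_mul]
  · intro h
    exact absurd (mem_range.mpr hk) h

theorem UC2 : UC2_stmt := by
  intro m R _ x b hm hB hb i j w hi hj hij hjN heq
  set N := 2 ^ m with hN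
  have hN16 : ∃ q : ℕ, N = 16 * q := ⟨2 ^ (m - 4), by
    rw [hN, show (16 : ℕ) = 2 ^ 4 by norm_num, ← pow_add]
    congr 1
    omega⟩
  obtain ⟨q, hq⟩ := hN16
  obtain ⟨i', hi'⟩ := hi
  obtain ⟨j', hj'⟩ := hj
  have hbar := fun k hk => UC2_bar N x (b x) hB.1 hb.1 k hk
  rw [hbar (2 * i) (by omega), hbar (2 * j) (by omega), hbar 2 (by omega)] at heq
  have hsum : ∑ k ∈ range N, (((if k = 2 * i then 1 else 0) - (if k = N - 2 * i then 1 else 0) +
      (if k = 2 * j then 1 else 0) - (if k = N - 2 * j then 1 else 0) + 2 * w k - (if k = 2 then 1 else 0) +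
      (if k = N - 2 then 1 else 0) : ℤ) : R) * x ^ k = 0 := by
    have e : ∀ k ∈ range N, (((if k = 2 * i then 1 else 0) - (if k = N - 2 * i then 1 else 0) +
      (if k = 2 * j then 1 else 0) - (if k = N - 2 * j then 1 else 0) + 2 * w k - (if k = 2 then 1 else 0) +
      (if k = N - 2 then 1 else 0) : ℤ) : R) * x ^ k =
      ((if k = 2 * i then 1 else 0 : ℤ) : R) * x ^ k - ((if k = N - 2 * i then 1 else 0 : ℤ) : R) * x ^ k +
      ((if k = 2 * j then 1 else 0 : ℤ) : R) * x ^ k - ((if k = N - 2 * j then 1 else 0 : ℤ) : R) * x ^ k +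
      2 * ((w k : R) * x ^ k) - ((if k = 2 then 1 else 0 : ℤ) : R) * x ^ k +
      ((if k = N - 2 then 1 else 0 : ℤ) : R) * x ^ k := by
      intro k _
      rw [Int.cast_add, Int.cast_sub, Int.cast_add, Int.cast_sub, Int.cast_add, Int.cast_sub, Int.cast_mul, Int.cast_ofNat]
      ring
    rw [sum_congr rfl e, sum_add_distrib, sum_sub_distrib, sum_add_distrib, sum_sub_distrib, sum_add_distrib,
      sum_sub_distrib, ← mul_sum, ← UC2_mon N x (2 * i) (by omega), ← UC2_mon N x (N - 2 * i) (by omega),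
      ← UC2_mon N x (2 * j) (by omega), ← UC2_mon N x (N - 2 * j) (by omega), ← UC2_mon N x 2 (by omega),
      ← UC2_mon N x (N - 2) (by omega)]
    linear_combination heq
  have hC := hB.2 _ hsum
  by_cases h1 : i + j = 8 * q
  · have h2 := hC 2 (by omega)
    split_ifs at h2 <;> omega
  · by_cases h3 : 2 * j = N - 2
    · have h2 := hC (2 * i) (by omega)
      split_ifs at h2 <;> omega
    · have h2 := hC (2 * j) (by omega)
      split_ifs at h2 <;> omega

end Pool.Agent.UF
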